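import Mathlib

namespace Pool.Agent.Results.MP_aa7196_co.TUpSetCorrelation

open Finset

/-- A permutation `a : Equiv.Perm (Fin n)` is read as the sequence whose entry at position `k`
is `a k`, so `a.symm i` is the position of the element `i`.  A family `A` is a `t`-up-set if,
whenever `a ∈ A`, `i < j`, the larger element `j` stands before `i`, and their positions
differ by at most `t`, exchanging the entries `i` and `j` gives again a member of `A`. -/
def IsTUpSet {n : ℕ} (t : ℕ) (A : Finset (Equiv.Perm (Fin n))) : Prop :=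
  ∀ a ∈ A, ∀ i j : Fin n, i < j → a.symm j < a.symm i →
    (a.symm i : ℕ) - (a.symm j : ℕ) ≤ t → a.trans (Equiv.swap i j) ∈ A

section aux

variable {n : ℕ}

/-- Permutations agreeing with `a` in the positions of all elements `≥ m`. -/
def cls (m : ℕ) (a : Equiv.Perm (Fin n)) : Finset (Equiv.Perm (Fin n)) :=
  univ.filter fun b => ∀ j : Fin n, m ≤ (j : ℕ) → b.symm j = a.symm j

/-- Positions of the elements `< m`. -/
def Qs (m : ℕ) (a : Equiv.Perm (Fin n)) : Finset (Fin n) :=
  univ.filter fun l => (a l : ℕ) < m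

/-- Move the element `m` to the position `l`. -/
def step (a : Equiv.Perm (Fin n)) (m : Fin n) (l : Fin n) : Equiv.Perm (Fin n) :=
  a.trans (Equiv.swap (a l) m)

theorem mem_cls {m : ℕ} {a b : Equiv.Perm (Fin n)} :
    b ∈ cls m a ↔ ∀ j : Fin n, m ≤ (j : ℕ) → b.symm j = a.symm j := by
  simp [cls]

theorem mem_Qs {m : ℕ} {a : Equiv.Perm (Fin n)} {l : Fin n} :
    l ∈ Qs m a ↔ (a l : ℕ) < m := by
  simp [Qs]

theorem mem_cls_step {m : Fin n} {a b : Equiv.Perm (Fin n)} {l : Fin n}
    (hl : l ∈ Qs (m + 1) a) :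
    b ∈ cls m (step a m l) ↔ b ∈ cls (m + 1) a ∧ b.symm m = l := by
  rw [mem_Qs] at hl
  rw [mem_cls, mem_cls]
  have hstep : ∀ j : Fin n, (step a m l).symm j = a.symm (Equiv.swap (a l) m j) := by
    intro j
    simp [step]
  constructor
  · intro h
    refine ⟨?_, ?_⟩
    · intro j hj
      rw [h j (by omega), hstep]
      rw [Equiv.swap_apply_of_ne_of_ne]
      · intro h1
        rw [h1] at hj
        omega
      · intro h1
        rw [h1] at hj
        omega
    · rw [h m le_rfl, hstep]
      simp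
  · rintro ⟨h, h2⟩ j hj
    rw [hstep]
    rcases eq_or_ne j m with rfl | hjm
    · simp [h2]
    · have hj' : (m : ℕ) + 1 ≤ j := by
        have : (j : ℕ) ≠ m := fun h => hjm (Fin.ext h)
        omega
      rw [h j hj', Equiv.swap_apply_of_ne_of_ne]
      · intro h1
        rw [h1] at hj'
        omega
      · exact hjm

theorem symm_mem_Qs {m : Fin n} {a b : Equiv.Perm (Fin n)} (hb : b ∈ cls (m + 1) a) :
    b.symm m ∈ Qs (m + 1) a := by
  rw [mem_Qs]
  rw [mem_cls] at hb
  by_contra hcon
  have h1 := hb (a (b.symm m)) (by omega)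
  rw [Equiv.symm_apply_apply] at h1
  have h2 : a (b.symm m) = m := b.symm.injective h1
  rw [h2] at hcon
  omega

theorem card_inter_succ (A : Finset (Equiv.Perm (Fin n))) (m : Fin n)
    (a : Equiv.Perm (Fin n)) :
    (A ∩ cls (m + 1) a).card = ∑ l ∈ Qs (m + 1) a, (A ∩ cls m (step a m l)).card := by
  rw [Finset.card_eq_sum_card_fiberwise (f := fun b : Equiv.Perm (Fin n) => b.symm m)
    (t := Qs (m + 1) a)]
  · apply Finset.sum_congr rfl
    intro l hl
    congr 1
    ext b
    simp only [Finset.mem_filter, Finset.mem_inter]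
    rw [mem_cls_step hl]
    tauto
  · intro b hb
    simp only [Finset.coe_inter, Set.mem_inter_iff, Finset.mem_coe] at hb
    exact symm_mem_Qs hb.2

theorem Qs_step {m : Fin n} {a : Equiv.Perm (Fin n)} {l : Fin n} (hl : l ∈ Qs (m + 1) a) :
    Qs m (step a m l) = (Qs (m + 1) a).erase l := by
  rw [mem_Qs] at hl
  ext x
  rw [mem_Qs, Finset.mem_erase, mem_Qs]
  simp only [step, Equiv.trans_apply]
  rcases eq_or_ne x l with rfl | hx
  · simp
  · have hax : a x ≠ a l := fun h => hx (a.injective h)
    rcases eq_or_ne (a x) m with hxm | hxm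
    · rw [hxm, Equiv.swap_apply_right]
      constructor
      · intro _
        exact ⟨hx, by omega⟩
      · intro _
        have : (a l : ℕ) ≠ m := by
          intro h
          apply hax
          rw [hxm]
          exact (Fin.ext h).symm
        omega
    · rw [Equiv.swap_apply_of_ne_of_ne hax hxm]
      constructor
      · intro h
        exact ⟨hx, by omega⟩
      · rintro ⟨_, h⟩
        have : (a x : ℕ) ≠ m := fun h => hxm (Fin.ext h)
        omega

theorem card_Qs {m : ℕ} (hm : m ≤ n) (a : Equiv.Perm (Fin n)) : (Qs m a).card = m := by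
  have : Qs m a = (univ.filter fun j : Fin n => (j : ℕ) < m).map a.symm.toEmbedding := by
    ext x
    simp only [mem_Qs, Finset.mem_map, Finset.mem_filter, Finset.mem_univ, true_and,
      Equiv.coe_toEmbedding]
    constructor
    · intro h
      exact ⟨a x, h, by simp⟩
    · rintro ⟨y, hy, rfl⟩
      simpa using hy
  rw [this, Finset.card_map]
  rw [Fin.card_filter_val_lt]
  omega

/-- The gap condition. -/
def Good (t : ℕ) (Q : Finset (Fin n)) : Prop :=
  ∀ l ∈ Q, ∀ l' ∈ Q, l < l' → ∃ l'' ∈ Q, l < l'' ∧ (l'' : ℕ) ≤ l + t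

theorem step_mono {t : ℕ} {A : Finset (Equiv.Perm (Fin n))} (hA : IsTUpSet t A) {m : Fin n}
    {a : Equiv.Perm (Fin n)} {l l' : Fin n} (hl : l ∈ Qs (m + 1) a) (hl' : l' ∈ Qs (m + 1) a)
    (hlt : l < l') (hd : (l' : ℕ) ≤ l + t) :
    (A ∩ cls m (step a m l)).card ≤ (A ∩ cls m (step a m l')).card := by
  apply Finset.card_le_card_of_injOn (fun b : Equiv.Perm (Fin n) => (Equiv.swap l l').trans b)
  · intro b hb
    simp only [Finset.coe_inter, Set.mem_inter_iff, Finset.mem_coe] at hb ⊢
    obtain ⟨hbA, hb2⟩ := hb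
    rw [mem_cls_step hl] at hb2
    obtain ⟨hb2, hb3⟩ := hb2
    have hbl : b l = m := by rw [← hb3]; simp
    have hk : b l' < m := by
      by_contra hcon
      have hne : b l' ≠ m := by
        intro h
        rw [← hbl] at h
        exact hlt.ne (b.injective h).symm
      have hgt : (m : ℕ) + 1 ≤ b l' := by
        have h1 : (b l' : ℕ) ≠ m := fun h => hne (Fin.ext h)
        have h2 : ¬ ((b l' : ℕ) < m) := hcon
        omega
      have h3 := (mem_cls.1 hb2) (b l') hgt
      rw [Equiv.symm_apply_apply] at h3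
      have h4 : a l' = b l' := by
        have h5 := congrArg a h3
        simpa using h5
      rw [mem_Qs, h4] at hl'
      omega
    constructor
    · have h := hA b hbA (b l') m hk (by rw [hb3]; simpa using hlt)
        (by rw [hb3, Equiv.symm_apply_apply]; omega)
      have heq : b.trans (Equiv.swap (b l') m) = (Equiv.swap l l').trans b := by
        rw [← hbl]
        ext x
        simp only [Equiv.trans_apply]
        rcases eq_or_ne x l with rfl | h1
        · simp
        · rcases eq_or_ne x l' with rfl | h2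
          · simp
          · rw [Equiv.swap_apply_of_ne_of_ne h1 h2, Equiv.swap_apply_of_ne_of_ne]
            · exact fun h => h2 (b.injective h)
            · exact fun h => h1 (b.injective h)
      rw [heq] at h
      exact h
    · rw [mem_cls_step hl']
      constructor
      · rw [mem_cls] at hb2 ⊢
        intro j hj
        have h1 := hb2 j hj
        have h2 : ((Equiv.swap l l').trans b).symm j = Equiv.swap l l' (b.symm j) := by
          simp
        rw [h2, h1, Equiv.swap_apply_of_ne_of_ne]
        · intro h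
          rw [mem_Qs, ← h] at hl
          simp at hl
          omega
        · intro h
          rw [mem_Qs, ← h] at hl'
          simp at hl'
          omega
      · have h2 : ((Equiv.swap l l').trans b).symm m = Equiv.swap l l' (b.symm m) := by
          simp
        rw [h2, hb3]
        simp
  · intro b _ c _ h
    simp only at h
    ext x
    have := congrArg (fun e : Equiv.Perm (Fin n) => e (Equiv.swap l l' x)) h
    simpa using congrArg Fin.val this

theorem step_monotoneOn {t : ℕ} {A : Finset (Equiv.Perm (Fin n))} (hA : IsTUpSet t A)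
    {m : Fin n} {a : Equiv.Perm (Fin n)} (hg : Good t (Qs (m + 1) a)) :
    MonotoneOn (fun l => (A ∩ cls m (step a m l)).card) (Qs (m + 1) a : Set (Fin n)) := by
  have key : ∀ d : ℕ, ∀ l ∈ Qs (m + 1) a, ∀ l' ∈ Qs (m + 1) a, l < l' →
      (l' : ℕ) ≤ l + d → (A ∩ cls m (step a m l)).card ≤ (A ∩ cls m (step a m l')).card := by
    intro d
    induction d using Nat.strong_induction_on with
    | _ d ih =>
      intro l hl l' hl' hlt hd
      by_cases hdt : (l' : ℕ) ≤ l + t
      · exact step_mono hA hl hl' hlt hdt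
      · obtain ⟨l'', hl'', h1, h2⟩ := hg l hl l' hl' hlt
        have h3 := step_mono hA hl hl'' h1 h2
        have h4 : l'' < l' := by
          show (l'' : ℕ) < l'
          omega
        have h5 : (l : ℕ) < l'' := h1
        have hd0 : d - 1 < d := by
          have : (l : ℕ) < l' := hlt
          omega
        exact h3.trans (ih (d - 1) hd0 l'' hl'' l' hl' h4 (by omega))
  intro l hl l' hl' hle
  rcases hle.eq_or_lt with rfl | hlt
  · exact le_rfl
  · exact key (l' : ℕ) l hl l' hl' hlt (by omega)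

theorem good_erase_max {t : ℕ} {Q : Finset (Fin n)} (hg : Good t Q) (hQ : Q.Nonempty) :
    Good t (Q.erase (Q.max' hQ)) := by
  intro l hl l' hl' hlt
  rw [Finset.mem_erase] at hl hl'
  obtain ⟨l'', h1, h2, h3⟩ := hg l hl.2 l' hl'.2 hlt
  by_cases h : l'' = Q.max' hQ
  · refine ⟨l', Finset.mem_erase.2 hl', hlt, ?_⟩
    have h4 : l' ≤ Q.max' hQ := Finset.le_max' _ _ hl'.2
    have h5 : (l' : ℕ) ≤ (Q.max' hQ : Fin n) := h4
    rw [← h] at h5
    omega
  · exact ⟨l'', Finset.mem_erase.2 ⟨h, h1⟩, h2, h3⟩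

theorem cls_zero (a : Equiv.Perm (Fin n)) : cls 0 a = {a} := by
  ext b
  rw [mem_cls, Finset.mem_singleton]
  constructor
  · intro h
    have : b.symm = a.symm := by
      ext j
      rw [h j (Nat.zero_le _)]
    have h2 := congrArg Equiv.symm this
    simpa using h2
  · rintro rfl j _
    rfl

/-- If the remaining positions have small gaps, two nonempty conditional families meet. -/
theorem meet {t : ℕ} {A B : Finset (Equiv.Perm (Fin n))} (hA : IsTUpSet t A)
    (hB : IsTUpSet t B) (m : ℕ) (hm : m ≤ n) : ∀ a : Equiv.Perm (Fin n), Good t (Qs m a) →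
    0 < (A ∩ cls m a).card → 0 < (B ∩ cls m a).card → 0 < ((A ∩ B) ∩ cls m a).card := by
  induction m with
  | zero =>
    intro a _ h1 h2
    rw [cls_zero, Finset.card_pos] at *
    obtain ⟨x, hx⟩ := h1
    obtain ⟨y, hy⟩ := h2
    simp only [Finset.mem_inter, Finset.mem_singleton] at hx hy
    refine ⟨a, ?_⟩
    simp only [Finset.mem_inter, Finset.mem_singleton]
    obtain ⟨hx, hx2⟩ := hx
    obtain ⟨hy, hy2⟩ := hy
    rw [hx2] at hx
    rw [hy2] at hy
    exact ⟨⟨hx, hy⟩, by simp⟩
  | succ m ih =>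
    intro a hg h1 h2
    obtain ⟨m', hm'⟩ : ∃ m' : Fin n, (m' : ℕ) = m := ⟨⟨m, hm⟩, rfl⟩
    subst hm'
    have hne : (Qs ((m' : ℕ) + 1) a).Nonempty := by
      rw [← Finset.card_pos, card_Qs hm]
      omega
    set L := (Qs ((m' : ℕ) + 1) a).max' hne with hL
    have hLm : L ∈ Qs ((m' : ℕ) + 1) a := Finset.max'_mem _ _
    have key : ∀ C : Finset (Equiv.Perm (Fin n)), IsTUpSet t C →
        0 < (C ∩ cls (m' + 1) a).card → 0 < (C ∩ cls m' (step a m' L)).card := by
      intro C hC h
      rw [card_inter_succ] at h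
      obtain ⟨l, hl, hpos⟩ : ∃ l ∈ Qs ((m' : ℕ) + 1) a, 0 < (C ∩ cls m' (step a m' l)).card := by
        by_contra hcon
        push Not at hcon
        have : ∑ l ∈ Qs ((m' : ℕ) + 1) a, (C ∩ cls m' (step a m' l)).card = 0 := by
          apply Finset.sum_eq_zero
          intro l hl
          have := hcon l hl
          omega
        omega
      have := step_monotoneOn hC hg (Finset.mem_coe.2 hl) (Finset.mem_coe.2 hLm)
        (Finset.le_max' _ _ hl)
      simp only at this
      omega
    have hQ := Qs_step hLm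
    have hg' : Good t (Qs m' (step a m' L)) := by
      rw [hQ]
      exact good_erase_max hg hne
    have h3 := ih (by omega) (step a m' L) hg' (key A hA h1) (key B hB h2)
    rw [card_inter_succ]
    exact lt_of_lt_of_le h3 (Finset.single_le_sum
      (f := fun l => ((A ∩ B) ∩ cls m' (step a m' l)).card) (fun _ _ => Nat.zero_le _) hLm)

theorem card_cls (m : ℕ) (hm : m ≤ n) : ∀ a : Equiv.Perm (Fin n),
    (cls m a).card = m.factorial := by
  induction m with
  | zero =>
    intro a
    rw [cls_zero]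
    simp
  | succ m ih =>
    intro a
    obtain ⟨m', hm'⟩ : ∃ m' : Fin n, (m' : ℕ) = m := ⟨⟨m, hm⟩, rfl⟩
    subst hm'
    have h := card_inter_succ (Finset.univ) m' a
    simp only [Finset.univ_inter] at h
    rw [h, Finset.sum_congr rfl (fun l _ => ih (by omega) (step a m' l)), Finset.sum_const,
      card_Qs hm, Nat.factorial_succ, smul_eq_mul]

theorem cls_top (a : Equiv.Perm (Fin n)) : cls n a = univ := by
  ext b
  simp only [mem_cls, Finset.mem_univ, iff_true]
  intro j hj
  have := j.2
  omega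

theorem Qs_top (a : Equiv.Perm (Fin n)) : Qs n a = univ := by
  ext b
  simp only [mem_Qs, Finset.mem_univ, iff_true]
  exact (a b).2

open Classical in
/-- Indicator of a bad position set. -/
noncomputable def bad (t : ℕ) (Q : Finset (Fin n)) : ℝ := if Good t Q then 0 else 1

theorem bad_nonneg (t : ℕ) (Q : Finset (Fin n)) : 0 ≤ bad t Q := by
  unfold bad
  split_ifs <;> norm_num

/-- The accumulated error. -/
noncomputable def err (m0 t : ℕ) (Q : Finset (Fin n)) : ℝ :=
  ∑ k ∈ Finset.Icc m0 Q.card, (∑ R ∈ Q.powersetCard k, bad t R) / (Q.card.choose k : ℝ)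

theorem double_count (Q : Finset (Fin n)) (k : ℕ) (h : Finset (Fin n) → ℝ) :
    ∑ l ∈ Q, ∑ R ∈ (Q.erase l).powersetCard k, h R
      = ((Q.card : ℝ) - k) * ∑ R ∈ Q.powersetCard k, h R := by
  rw [Finset.sum_comm' (t' := Q.powersetCard k) (s' := fun R => Q \ R)]
  · rw [Finset.mul_sum]
    apply Finset.sum_congr rfl
    intro R hR
    rw [Finset.mem_powersetCard] at hR
    rw [Finset.sum_const, nsmul_eq_mul, Finset.card_sdiff_of_subset hR.1, hR.2,
      Nat.cast_sub (hR.2 ▸ Finset.card_le_card hR.1)]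
  · intro l R
    simp only [Finset.mem_powersetCard, Finset.mem_sdiff]
    constructor
    · rintro ⟨hl, hR, hk⟩
      refine ⟨⟨hl, fun h => ?_⟩, hR.trans (Finset.erase_subset _ _), hk⟩
      exact (Finset.notMem_erase l Q) (hR h)
    · rintro ⟨⟨hl, hlR⟩, hR, hk⟩
      refine ⟨hl, ?_, hk⟩
      intro x hx
      rw [Finset.mem_erase]
      refine ⟨fun h => hlR (h ▸ hx), hR hx⟩

theorem err_step {m0 t m : ℕ} (hm : m0 ≤ m) {Q : Finset (Fin n)} (hQ : Q.card = m + 1) :
    err m0 t Q = bad t Q + (∑ l ∈ Q, err m0 t (Q.erase l)) / ((m : ℝ) + 1) := by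
  unfold err
  have h1 : ∀ l ∈ Q, (Q.erase l).card = m := by
    intro l hl
    rw [Finset.card_erase_of_mem hl, hQ]
    rfl
  have h2 : ∑ l ∈ Q, (∑ k ∈ Finset.Icc m0 (Q.erase l).card,
      (∑ R ∈ (Q.erase l).powersetCard k, bad t R) / ((Q.erase l).card.choose k : ℝ))
      = ∑ k ∈ Finset.Icc m0 m, ((m : ℝ) + 1 - k) * (∑ R ∈ Q.powersetCard k, bad t R) /
        (m.choose k : ℝ) := by
    rw [Finset.sum_congr rfl (fun l hl => by rw [h1 l hl])]
    rw [Finset.sum_comm]
    apply Finset.sum_congr rfl
    intro k _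
    rw [← Finset.sum_div, double_count, hQ]
    push_cast
    ring
  rw [h2, hQ]
  rw [← Finset.insert_Icc_right_eq_Icc_add_one (by omega), Finset.sum_insert (by simp)]
  congr 1
  · rw [← hQ, Finset.powersetCard_self]
    simp
  · rw [Finset.sum_div]
    apply Finset.sum_congr rfl
    intro k hk
    rw [Finset.mem_Icc] at hk
    have h3 : (m.choose k : ℝ) * ((m : ℝ) + 1) = ((m + 1).choose k : ℝ) * ((m : ℝ) + 1 - k) := by
      have := Nat.choose_mul_succ_eq m k
      have h4 : ((m.choose k * (m + 1) : ℕ) : ℝ) = (((m + 1).choose k * (m + 1 - k) : ℕ) : ℝ) := by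
        rw [this]
      rw [Nat.cast_mul, Nat.cast_mul, Nat.cast_sub (by omega)] at h4
      push_cast at h4
      exact h4
    have h5 : (0 : ℝ) < m.choose k := by exact_mod_cast Nat.choose_pos hk.2
    have h6 : (0 : ℝ) < (m + 1).choose k := by
      exact_mod_cast Nat.choose_pos (by omega)
    have h7 : (0 : ℝ) < (m : ℝ) + 1 := by positivity
    field_simp
    have h8 : ((m : ℝ) + 1 - k) = (m.choose k : ℝ) * ((m : ℝ) + 1) / ((m + 1).choose k : ℝ) := by
      rw [h3]
      field_simp
    rw [h8]
    field_simp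

/-- Conditional density. -/
noncomputable def fr (A : Finset (Equiv.Perm (Fin n))) (m : ℕ) (a : Equiv.Perm (Fin n)) : ℝ :=
  ((A ∩ cls m a).card : ℝ) / (m.factorial : ℝ)

theorem fr_nonneg (A : Finset (Equiv.Perm (Fin n))) (m : ℕ) (a : Equiv.Perm (Fin n)) :
    0 ≤ fr A m a := by
  unfold fr
  positivity

theorem fr_le_one (A : Finset (Equiv.Perm (Fin n))) {m : ℕ} (hm : m ≤ n)
    (a : Equiv.Perm (Fin n)) : fr A m a ≤ 1 := by
  unfold fr
  rw [div_le_one (by positivity)]
  rw [← card_cls m hm a]
  exact_mod_cast Finset.card_le_card Finset.inter_subset_right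

theorem fr_succ (A : Finset (Equiv.Perm (Fin n))) (m : Fin n) (a : Equiv.Perm (Fin n)) :
    fr A (m + 1) a = (∑ l ∈ Qs (m + 1) a, fr A m (step a m l)) / ((m : ℝ) + 1) := by
  unfold fr
  rw [card_inter_succ, ← Finset.sum_div, Nat.factorial_succ]
  push_cast
  rw [div_div, mul_comm]

theorem main_ind {t : ℕ} {A B : Finset (Equiv.Perm (Fin n))} (hA : IsTUpSet t A)
    (hB : IsTUpSet t B) (m0 m : ℕ) (h0 : m0 ≤ m) (hm : m ≤ n) : ∀ a : Equiv.Perm (Fin n),
    (fr A m a * fr B m a - err m0 t (Qs m a)) / (m0.factorial : ℝ) ≤ fr (A ∩ B) m a := by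
  induction m, h0 using Nat.le_induction with
  | base =>
    intro a
    have hq := card_Qs hm a
    have herr : err m0 t (Qs m0 a) = bad t (Qs m0 a) := by
      unfold err
      rw [hq]
      simp only [Finset.Icc_self, Finset.sum_singleton]
      nth_rewrite 1 [← hq]
      rw [Finset.powersetCard_self]
      simp
    rw [herr]
    unfold bad
    split_ifs with hg
    · rcases Nat.eq_zero_or_pos (A ∩ cls m0 a).card with h1 | h1
      · have : fr A m0 a = 0 := by
          unfold fr
          rw [h1]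
          simp
        rw [this]
        simp only [zero_mul, sub_zero, zero_div]
        exact fr_nonneg _ _ _
      rcases Nat.eq_zero_or_pos (B ∩ cls m0 a).card with h2 | h2
      · have : fr B m0 a = 0 := by
          unfold fr
          rw [h2]
          simp
        rw [this]
        simp only [mul_zero, sub_zero, zero_div]
        exact fr_nonneg _ _ _
      have h3 := meet hA hB m0 hm a hg h1 h2
      have h4 : (1 : ℝ) ≤ ((A ∩ B) ∩ cls m0 a).card := by exact_mod_cast h3
      have h5 : fr A m0 a * fr B m0 a ≤ 1 :=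
        mul_le_one₀ (fr_le_one A hm a) (fr_nonneg _ _ _) (fr_le_one B hm a)
      unfold fr at h5 ⊢
      apply div_le_div_of_nonneg_right _ (by positivity)
      linarith
    · have h5 : fr A m0 a * fr B m0 a ≤ 1 :=
        mul_le_one₀ (fr_le_one A hm a) (fr_nonneg _ _ _) (fr_le_one B hm a)
      have h6 : (fr A m0 a * fr B m0 a - 1) / (m0.factorial : ℝ) ≤ 0 :=
        div_nonpos_of_nonpos_of_nonneg (by linarith) (by positivity)
      exact h6.trans (fr_nonneg _ _ _)
  | succ m h0 ih =>
    intro a
    obtain ⟨m', hm'⟩ : ∃ m' : Fin n, (m' : ℕ) = m := ⟨⟨m, hm⟩, rfl⟩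
    subst hm'
    have hq := card_Qs hm a
    have hpos : (0 : ℝ) < (m' : ℝ) + 1 := by positivity
    have hfac : (0 : ℝ) < (m0.factorial : ℝ) := by positivity
    -- Chebyshev step
    have hcheb : fr A (m' + 1) a * fr B (m' + 1) a - bad t (Qs (m' + 1) a) ≤
        (∑ l ∈ Qs (m' + 1) a, fr A m' (step a m' l) * fr B m' (step a m' l)) / ((m' : ℝ) + 1) := by
      unfold bad
      split_ifs with hg
      · have hmA : MonotoneOn (fun l => fr A m' (step a m' l))
            (Qs ((m' : ℕ) + 1) a : Set (Fin n)) := by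
          intro l hl l' hl' hle
          have := step_monotoneOn hA hg hl hl' hle
          simp only at this ⊢
          unfold fr
          apply div_le_div_of_nonneg_right _ (by positivity)
          exact_mod_cast this
        have hmB : MonotoneOn (fun l => fr B m' (step a m' l))
            (Qs ((m' : ℕ) + 1) a : Set (Fin n)) := by
          intro l hl l' hl' hle
          have := step_monotoneOn hB hg hl hl' hle
          simp only at this ⊢
          unfold fr
          apply div_le_div_of_nonneg_right _ (by positivity)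
          exact_mod_cast this
        have h := (hmA.monovaryOn hmB).sum_mul_sum_le_card_mul_sum
        rw [hq] at h
        push_cast at h
        rw [fr_succ, fr_succ, sub_zero, div_mul_div_comm, div_le_div_iff₀ (by positivity) hpos]
        nlinarith [h, hpos]
      · have h5 : fr A (m' + 1) a * fr B (m' + 1) a ≤ 1 :=
          mul_le_one₀ (fr_le_one A hm a) (fr_nonneg _ _ _) (fr_le_one B hm a)
        have h6 : 0 ≤ (∑ l ∈ Qs (m' + 1) a,
            fr A m' (step a m' l) * fr B m' (step a m' l)) / ((m' : ℝ) + 1) := by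
          apply div_nonneg _ hpos.le
          apply Finset.sum_nonneg
          intro l _
          exact mul_nonneg (fr_nonneg _ _ _) (fr_nonneg _ _ _)
        linarith
    rw [err_step h0 hq, fr_succ (A ∩ B)]
    have hsum : ∑ l ∈ Qs ((m' : ℕ) + 1) a, (fr A m' (step a m' l) * fr B m' (step a m' l)
        - err m0 t ((Qs ((m' : ℕ) + 1) a).erase l)) / (m0.factorial : ℝ) ≤
        ∑ l ∈ Qs ((m' : ℕ) + 1) a, fr (A ∩ B) m' (step a m' l) := by
      apply Finset.sum_le_sum
      intro l hl
      have := ih (by omega) (step a m' l)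
      rw [Qs_step hl] at this
      exact this
    calc (fr A (m' + 1) a * fr B (m' + 1) a - (bad t (Qs (m' + 1) a) +
          (∑ l ∈ Qs ((m' : ℕ) + 1) a, err m0 t ((Qs ((m' : ℕ) + 1) a).erase l)) / ((m' : ℝ) + 1)))
            / (m0.factorial : ℝ)
        ≤ ((∑ l ∈ Qs (m' + 1) a, fr A m' (step a m' l) * fr B m' (step a m' l)) / ((m' : ℝ) + 1)
          - (∑ l ∈ Qs ((m' : ℕ) + 1) a, err m0 t ((Qs ((m' : ℕ) + 1) a).erase l)) / ((m' : ℝ) + 1))
            / (m0.factorial : ℝ) := by
          apply div_le_div_of_nonneg_right _ hfac.le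
          linarith
      _ = (∑ l ∈ Qs ((m' : ℕ) + 1) a, (fr A m' (step a m' l) * fr B m' (step a m' l)
        - err m0 t ((Qs ((m' : ℕ) + 1) a).erase l)) / (m0.factorial : ℝ)) / ((m' : ℝ) + 1) := by
          rw [← Finset.sum_div, Finset.sum_sub_distrib]
          field_simp
      _ ≤ _ := div_le_div_of_nonneg_right hsum hpos.le

theorem bad_sum_le (t m : ℕ) :
    ∑ R ∈ (univ : Finset (Fin n)).powersetCard (m + 1), bad t R
      ≤ (n : ℝ) * ((n - 1 - t).choose m : ℝ) := by
  classical
  have h1 : ∑ R ∈ (univ : Finset (Fin n)).powersetCard (m + 1), bad t R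
      = (((univ : Finset (Fin n)).powersetCard (m + 1)).filter (fun R => ¬ Good t R)).card := by
    unfold bad
    rw [Finset.card_filter]
    push_cast
    apply Finset.sum_congr rfl
    intro R _
    by_cases h : Good t R <;> simp [h]
  rw [h1]
  let W : Fin n → Finset (Fin n) := fun l => univ.filter fun x => x < l ∨ (l : ℕ) + t < x
  have hW : ∀ l : Fin n, (l : ℕ) + t < n → (W l).card = n - 1 - t := by
    intro l hl
    have : W l = (Finset.Icc l ⟨(l : ℕ) + t, hl⟩)ᶜ := by
      ext x
      simp only [W, Finset.mem_filter, Finset.mem_univ, true_and, Finset.mem_compl,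
        Finset.mem_Icc, Fin.lt_def, Fin.le_def]
      omega
    rw [this, Finset.card_compl, Fin.card_Icc]
    simp only [Fintype.card_fin]
    omega
  have hsub : (((univ : Finset (Fin n)).powersetCard (m + 1)).filter (fun R => ¬ Good t R)) ⊆
      (univ.filter fun l : Fin n => (l : ℕ) + t < n).biUnion
        (fun l => ((W l).powersetCard m).image (fun R => insert l R)) := by
    intro R hR
    rw [Finset.mem_filter, Finset.mem_powersetCard] at hR
    obtain ⟨⟨_, hcard⟩, hbad⟩ := hR
    unfold Good at hbad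
    push Not at hbad
    obtain ⟨l, hl, l', hl', hlt, hall⟩ := hbad
    have h2 := hall l' hl' hlt
    rw [Finset.mem_biUnion]
    refine ⟨l, ?_, ?_⟩
    · rw [Finset.mem_filter]
      refine ⟨Finset.mem_univ _, ?_⟩
      have := l'.2
      omega
    · rw [Finset.mem_image]
      refine ⟨R.erase l, ?_, Finset.insert_erase hl⟩
      rw [Finset.mem_powersetCard]
      refine ⟨?_, ?_⟩
      · intro x hx
        rw [Finset.mem_erase] at hx
        simp only [W, Finset.mem_filter, Finset.mem_univ, true_and]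
        rcases lt_or_gt_of_ne hx.1 with h | h
        · exact Or.inl h
        · exact Or.inr (hall x hx.2 h)
      · rw [Finset.card_erase_of_mem hl, hcard]
        rfl
  have hc := Finset.card_le_card hsub
  have hc2 : ((univ.filter fun l : Fin n => (l : ℕ) + t < n).biUnion
        (fun l => ((W l).powersetCard m).image (fun R => insert l R))).card ≤
        n * (n - 1 - t).choose m := by
    refine Finset.card_biUnion_le.trans ?_
    calc ∑ l ∈ univ.filter (fun l : Fin n => (l : ℕ) + t < n),
          (((W l).powersetCard m).image (fun R => insert l R)).card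
        ≤ ∑ l ∈ univ.filter (fun l : Fin n => (l : ℕ) + t < n), (n - 1 - t).choose m := by
          apply Finset.sum_le_sum
          intro l hl
          rw [Finset.mem_filter] at hl
          refine Finset.card_image_le.trans ?_
          rw [Finset.card_powersetCard, hW l hl.2]
      _ = (univ.filter (fun l : Fin n => (l : ℕ) + t < n)).card * (n - 1 - t).choose m := by
          rw [Finset.sum_const, smul_eq_mul]
      _ ≤ n * (n - 1 - t).choose m := by
          apply Nat.mul_le_mul_right
          refine (Finset.card_le_univ _).trans ?_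
          simp
  exact_mod_cast hc.trans hc2

theorem choose_ratio {N t : ℕ} {ρ : ℝ} (hρ : 0 ≤ ρ) (hρ1 : ρ ≤ 1)
    (ht : (1 - ρ) * N ≤ (t : ℝ)) (k : ℕ) :
    ((N - t).choose k : ℝ) ≤ ρ ^ k * (N.choose k : ℝ) := by
  induction k with
  | zero => simp
  | succ k ih =>
    by_cases hk : N - t ≤ k
    · rw [Nat.choose_eq_zero_of_lt (by omega)]
      have : (0 : ℝ) ≤ ρ ^ (k + 1) * (N.choose (k + 1) : ℝ) := by positivity
      simpa using this
    · push Not at hk
      have h1 := Nat.choose_succ_right_eq (N - t) k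
      have h2 := Nat.choose_succ_right_eq N k
      have h1' : ((N - t).choose (k + 1) : ℝ) * ((k : ℝ) + 1)
          = ((N - t).choose k : ℝ) * ((N : ℝ) - t - k) := by
        have : (((N - t).choose (k + 1) * (k + 1) : ℕ) : ℝ)
            = (((N - t).choose k * (N - t - k) : ℕ) : ℝ) := by rw [h1]
        rw [Nat.cast_mul, Nat.cast_mul, Nat.cast_sub (by omega), Nat.cast_sub (by omega)] at this
        push_cast at this
        exact this
      have h2' : (N.choose (k + 1) : ℝ) * ((k : ℝ) + 1)
          = (N.choose k : ℝ) * ((N : ℝ) - k) := by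
        have : ((N.choose (k + 1) * (k + 1) : ℕ) : ℝ)
            = ((N.choose k * (N - k) : ℕ) : ℝ) := by rw [h2]
        rw [Nat.cast_mul, Nat.cast_mul, Nat.cast_sub (by omega)] at this
        push_cast at this
        exact this
      have h3 : (0 : ℝ) ≤ (N : ℝ) - t - k := by
        have : (k : ℝ) + t ≤ N := by
          have h : k + t ≤ N := by omega
          exact_mod_cast h
        linarith
      have h4 : (N : ℝ) - t - k ≤ ρ * ((N : ℝ) - k) := by
        have hk0 : (0 : ℝ) ≤ k := Nat.cast_nonneg k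
        nlinarith
      have hk1 : (0 : ℝ) < (k : ℝ) + 1 := by positivity
      have h5 : ((N - t).choose (k + 1) : ℝ) * ((k : ℝ) + 1) ≤
          (ρ ^ (k + 1) * (N.choose (k + 1) : ℝ)) * ((k : ℝ) + 1) := by
        calc ((N - t).choose (k + 1) : ℝ) * ((k : ℝ) + 1)
            = ((N - t).choose k : ℝ) * ((N : ℝ) - t - k) := h1'
          _ ≤ (ρ ^ k * (N.choose k : ℝ)) * ((N : ℝ) - t - k) :=
              mul_le_mul_of_nonneg_right ih h3
          _ ≤ (ρ ^ k * (N.choose k : ℝ)) * (ρ * ((N : ℝ) - k)) :=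
              mul_le_mul_of_nonneg_left h4 (by positivity)
          _ = ρ ^ (k + 1) * ((N.choose k : ℝ) * ((N : ℝ) - k)) := by ring
          _ = ρ ^ (k + 1) * ((N.choose (k + 1) : ℝ) * ((k : ℝ) + 1)) := by rw [h2']
          _ = _ := by ring
      exact le_of_mul_le_mul_right h5 hk1

theorem term_le {t k : ℕ} {ρ : ℝ} (hρ : 0 ≤ ρ) (hρ1 : ρ ≤ 1) (ht : (1 - ρ) * n ≤ (t : ℝ))
    (hk : k + 1 ≤ n) :
    (∑ R ∈ (univ : Finset (Fin n)).powersetCard (k + 1), bad t R) / (n.choose (k + 1) : ℝ)
      ≤ ((k : ℝ) + 1) * ρ ^ k := by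
  obtain ⟨N, rfl⟩ : ∃ N, n = N + 1 := ⟨n - 1, by omega⟩
  have hc : (0 : ℝ) < ((N + 1).choose (k + 1) : ℝ) := by
    exact_mod_cast Nat.choose_pos hk
  rw [div_le_iff₀ hc]
  have h1 := bad_sum_le (n := N + 1) t k
  have h2 : ((N - t).choose k : ℝ) ≤ ρ ^ k * (N.choose k : ℝ) := by
    apply choose_ratio hρ hρ1
    push_cast at ht
    have : (1 - ρ) * (N : ℝ) ≤ (1 - ρ) * ((N : ℝ) + 1) := by
      apply mul_le_mul_of_nonneg_left _ (by linarith)
      linarith
    linarith
  have h3 : ((N : ℝ) + 1) * (N.choose k : ℝ) = ((N + 1).choose (k + 1) : ℝ) * ((k : ℝ) + 1) := by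
    have := Nat.add_one_mul_choose_eq N k
    exact_mod_cast this
  simp only [Nat.add_sub_cancel] at h1
  push_cast at h1
  calc (∑ R ∈ (univ : Finset (Fin (N + 1))).powersetCard (k + 1), bad t R)
      ≤ ((N : ℝ) + 1) * ((N - t).choose k : ℝ) := h1
    _ ≤ ((N : ℝ) + 1) * (ρ ^ k * (N.choose k : ℝ)) :=
        mul_le_mul_of_nonneg_left h2 (by positivity)
    _ = ρ ^ k * (((N : ℝ) + 1) * (N.choose k : ℝ)) := by ring
    _ = ((k : ℝ) + 1) * ρ ^ k * ((N + 1).choose (k + 1) : ℝ) := by rw [h3]; ring

theorem err_univ_le {t m0 : ℕ} {ρ ε : ℝ} (hρ : 0 ≤ ρ) (hρ1 : ρ ≤ 1)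
    (ht : (1 - ρ) * n ≤ (t : ℝ))
    (htail : ∀ M : ℕ, ∑ k ∈ Finset.Ico m0 M, ((k : ℝ) + 1) * ρ ^ k ≤ ε) :
    err (m0 + 1) t (univ : Finset (Fin n)) ≤ ε := by
  unfold err
  have hcard : (univ : Finset (Fin n)).card = n := by simp
  rw [hcard]
  have h : Finset.Icc (m0 + 1) n = (Finset.Ico m0 n).image (fun k => k + 1) := by
    ext x
    simp only [Finset.mem_Icc, Finset.mem_image, Finset.mem_Ico]
    constructor
    · rintro ⟨h1, h2⟩
      exact ⟨x - 1, by omega, by omega⟩
    · rintro ⟨y, hy, rfl⟩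
      omega
  rw [h, Finset.sum_image (by intro x _ y _ hxy; simpa using hxy)]
  refine le_trans (Finset.sum_le_sum ?_) (htail n)
  intro k hk
  rw [Finset.mem_Ico] at hk
  exact term_le hρ hρ1 ht (by omega)

theorem good_univ {t : ℕ} (ht : 1 ≤ t ∨ n = 0) : Good t (univ : Finset (Fin n)) := by
  intro l _ l' _ hlt
  have h1 : (l : ℕ) < l' := hlt
  have h2 := l'.2
  rcases ht with ht | ht
  · refine ⟨⟨(l : ℕ) + 1, by omega⟩, Finset.mem_univ _, ?_, ?_⟩
    · show (l : ℕ) < (l : ℕ) + 1
      omega
    · show (l : ℕ) + 1 ≤ (l : ℕ) + t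
      omega
  · exfalso
    omega

end aux

theorem exists_tail {ρ ε : ℝ} (hρ : 0 ≤ ρ) (hρ1 : ρ < 1) (hε : 0 < ε) :
    ∃ m0 : ℕ, ∀ M : ℕ, ∑ k ∈ Finset.Ico m0 M, ((k : ℝ) + 1) * ρ ^ k ≤ ε := by
  have hn : ‖ρ‖ < 1 := by
    rw [Real.norm_of_nonneg hρ]
    exact hρ1
  have hs1 : Summable fun k : ℕ => (k : ℝ) ^ 1 * ρ ^ k :=
    summable_pow_mul_geometric_of_norm_lt_one 1 hn
  have hs2 : Summable fun k : ℕ => ρ ^ k := summable_geometric_of_norm_lt_one hn
  have hs : Summable fun k : ℕ => ((k : ℝ) + 1) * ρ ^ k := by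
    refine (hs1.add hs2).congr ?_
    intro k
    ring
  rw [summable_iff_vanishing_norm] at hs
  obtain ⟨s, hs⟩ := hs ε hε
  refine ⟨s.sup id + 1, ?_⟩
  intro M
  have hd : Disjoint (Finset.Ico (s.sup id + 1) M) s := by
    rw [Finset.disjoint_left]
    intro x hx hxs
    rw [Finset.mem_Ico] at hx
    have := Finset.le_sup (f := id) hxs
    simp only [id] at this
    omega
  have := hs _ hd
  exact (le_abs_self _).trans this.le

/-- For every `α > 0` there is `β > 0` such that any two `⌈α n⌉`-up-sets of permutations of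
density at least `α` have an intersection of density at least `β`. -/
theorem result (α : ℝ) (hα : 0 < α) :
    ∃ β : ℝ, 0 < β ∧ ∀ (n : ℕ) (A B : Finset (Equiv.Perm (Fin n))),
      IsTUpSet ⌈α * (n : ℝ)⌉₊ A → IsTUpSet ⌈α * (n : ℝ)⌉₊ B →
      α * (n.factorial : ℝ) ≤ (A.card : ℝ) → α * (n.factorial : ℝ) ≤ (B.card : ℝ) →
      β * (n.factorial : ℝ) ≤ ((A ∩ B).card : ℝ) := by
  by_cases hα1 : α ≤ 1
  · obtain ⟨m0, hm0⟩ := exists_tail (ρ := 1 - α) (ε := α ^ 2 / 2) (by linarith) (by linarith)
      (by positivity)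
    refine ⟨α ^ 2 / 2 / ((m0 + 1).factorial : ℝ), by positivity, ?_⟩
    intro n A B hA hB hcA hcB
    have hnf : (0 : ℝ) < (n.factorial : ℝ) := by positivity
    have hmf : (0 : ℝ) < ((m0 + 1).factorial : ℝ) := by positivity
    have ht : (1 - (1 - α)) * (n : ℝ) ≤ ((⌈α * (n : ℝ)⌉₊ : ℕ) : ℝ) := by
      have := Nat.le_ceil (α * (n : ℝ))
      linarith
    by_cases hn : m0 + 1 ≤ n
    · have h := main_ind hA hB (m0 + 1) n hn le_rfl 1
      have herr := err_univ_le (n := n) (t := ⌈α * (n : ℝ)⌉₊) (m0 := m0) (ρ := 1 - α)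
        (ε := α ^ 2 / 2) (by linarith) (by linarith) ht hm0
      rw [Qs_top] at h
      unfold fr at h
      rw [cls_top] at h
      simp only [Finset.inter_univ] at h
      have hfA : α ≤ (A.card : ℝ) / (n.factorial : ℝ) := by
        rw [le_div_iff₀ hnf]
        exact hcA
      have hfB : α ≤ (B.card : ℝ) / (n.factorial : ℝ) := by
        rw [le_div_iff₀ hnf]
        exact hcB
      have hprod : α ^ 2 ≤ (A.card : ℝ) / (n.factorial : ℝ) * ((B.card : ℝ) / (n.factorial : ℝ)) := by
        nlinarith
      have h2 : α ^ 2 / 2 / ((m0 + 1).factorial : ℝ) ≤ ((A ∩ B).card : ℝ) / (n.factorial : ℝ) := by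
        refine le_trans (div_le_div_of_nonneg_right ?_ hmf.le) h
        linarith
      rw [le_div_iff₀ hnf] at h2
      exact h2
    · have hpos : ∀ C : Finset (Equiv.Perm (Fin n)), α * (n.factorial : ℝ) ≤ (C.card : ℝ) →
          0 < (C ∩ cls n 1).card := by
        intro C hC
        rw [cls_top, Finset.inter_univ]
        have : (0 : ℝ) < (C.card : ℝ) := lt_of_lt_of_le (by positivity) hC
        exact_mod_cast this
      have hg : Good ⌈α * (n : ℝ)⌉₊ (Qs n (1 : Equiv.Perm (Fin n))) := by
        rw [Qs_top]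
        apply good_univ
        rcases Nat.eq_zero_or_pos n with h | h
        · exact Or.inr h
        · left
          rw [Nat.one_le_ceil_iff]
          positivity
      have h := meet hA hB n le_rfl 1 hg (hpos A hcA) (hpos B hcB)
      rw [cls_top, Finset.inter_univ] at h
      have h1 : (1 : ℝ) ≤ ((A ∩ B).card : ℝ) := by exact_mod_cast h
      refine le_trans ?_ h1
      have hle : (n.factorial : ℝ) ≤ ((m0 + 1).factorial : ℝ) := by
        exact_mod_cast Nat.factorial_le (by omega)
      have : α ^ 2 / 2 / ((m0 + 1).factorial : ℝ) * (n.factorial : ℝ)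
          = α ^ 2 / 2 * ((n.factorial : ℝ) / ((m0 + 1).factorial : ℝ)) := by ring
      rw [this]
      have h3 : (n.factorial : ℝ) / ((m0 + 1).factorial : ℝ) ≤ 1 := by
        rw [div_le_one hmf]
        exact hle
      have h4 : 0 ≤ (n.factorial : ℝ) / ((m0 + 1).factorial : ℝ) := by positivity
      nlinarith
  · refine ⟨1, one_pos, ?_⟩
    intro n A B hA hB hcA hcB
    exfalso
    have hnf : (0 : ℝ) < (n.factorial : ℝ) := by positivity
    have h1 : A.card ≤ n.factorial := by
      refine (Finset.card_le_univ A).trans ?_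
      rw [Fintype.card_perm, Fintype.card_fin]
    have h2 : (A.card : ℝ) ≤ (n.factorial : ℝ) := by exact_mod_cast h1
    push Not at hα1
    nlinarith

end Pool.Agent.Results.MP_aa7196_co.TUpSetCorrelation
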